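import Pool.Agent.Q225.VarA

set_option autoImplicit false

namespace Pool.Agent.Results.MP_165839_co.EtaNonneg

open Pool.Agent.Q225.Variety

/-- **Answer to the question: yes.** `η(G) ≥ 0` for every `d`-variety `G`, `d ≥ 0`. More precisely,
`η(G) = 0` if `d` is even, and if `d` is odd then `η(G)` is the sum of the positive numbers
`2 + 4 |c| (-1/2) ^ |c|` over the complete subgraphs `c` of `G` with at least two vertices. -/
theorem result (V : Type) [Fintype V] (G : SimpleGraph V) (d : ℕ) (h : IsVariety G d) :
    0 ≤ eta G ∧ (Even d → eta G = 0) ∧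
    (Odd d → (eta G : ℚ) = ∑ c ∈ (cliques G Finset.univ).filter (fun c => 2 ≤ c.card),
      (2 + 4 * (c.card : ℚ) * (-1 / 2) ^ c.card)) := by
  have he : Even d → eta G = 0 := by
    intro hd
    have h1 : (eta G : ℚ) = 0 := by
      rw [eta_eq]
      refine Finset.sum_eq_zero fun c hc => ?_
      rw [curv_even G d hd h c hc]
      norm_num
    exact_mod_cast h1
  refine ⟨?_, he, fun hd => eta_odd G d hd h⟩
  rcases Nat.even_or_odd d with hd | hd
  · rw [he hd]
  · have h1 : (0 : ℚ) ≤ (eta G : ℚ) := by
      rw [eta_odd G d hd h]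
      refine Finset.sum_nonneg fun c hc => ?_
      exact (term_pos c.card (Finset.mem_filter.mp hc).2).le
    exact_mod_cast h1

end Pool.Agent.Results.MP_165839_co.EtaNonneg
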